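import Pool.Agent.helper82.LEQ.Spec

/-!
# LEQ, row XB: the reduced Euler characteristic, by smallest members
-/

set_option autoImplicit false

namespace LEQ

open scoped BigOperators
open QS (Lef EAb)

theorem XB_dual {α : Type} [PartialOrder α] [Finite α] (P : α → Prop) :
    XS (α := αᵒᵈ) (fun x => P (OrderDual.ofDual x)) = XS P := by
  unfold XS
  refine Finset.sum_bij' (fun (s : Finset αᵒᵈ) _ => (show Finset α from s))
    (fun (s : Finset α) _ => (show Finset αᵒᵈ from s)) ?_ ?_ ?_ ?_ ?_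
  · intro s hs
    rw [mem_FS] at hs ⊢
    exact ⟨hs.1.symm, hs.2⟩
  · intro s hs
    rw [mem_FS] at hs ⊢
    exact ⟨hs.1.symm, hs.2⟩
  · intro s _
    rfl
  · intro s _
    rfl
  · intro s _
    rfl

theorem XB (h1 : XT_stmt) : XB_stmt := by
  intro α _ _ P
  have h := h1 αᵒᵈ (fun x => P (OrderDual.ofDual x))
  rw [XB_dual P] at h
  rw [h]
  congr 1
  refine Finset.sum_bij' (fun (x : αᵒᵈ) _ => OrderDual.ofDual x) (fun (x : α) _ => OrderDual.toDual x)
    ?_ ?_ ?_ ?_ ?_
  · intro x hx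
    rw [mem_FS] at hx ⊢
    exact hx
  · intro x hx
    rw [mem_FS] at hx ⊢
    exact hx
  · intro x _
    rfl
  · intro x _
    rfl
  · intro x _
    exact XB_dual (fun y => P y ∧ OrderDual.ofDual x < y)

end LEQ
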